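import Pool.Agent.H26.Lib.R_seed8.W353.TP.Inum

/-! Differences of `L`-functions over extensions, maximal orthogonal families. -/

set_option autoImplicit false

namespace Pool.Agent.W353.TP

open Complex Filter Topology ComplexConjugate NumberField IsDedekindDomain Pool.Agent.H341R2
  Asymptotics Polynomial
open Pool.Agent.H921R2.TatePole (nm)
open Pool.Agent.H126T (pairs bb bb_pos Gd L2 order_limit)

section
variable {K : Type} [Field K] [NumberField K] {r : ℕ}

/-- the data of the Euler factors are admissible -/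
def Adm (f : Fin r → (𝓞 K)[X]) (F : Type) [Field F] [NumberField F] [Algebra K F]
    (d : Fin r → 𝓞 F) (S : Finset (HeightOneSpectrum (𝓞 F)))
    (B : HeightOneSpectrum (𝓞 F) → ℂ[X]) (τ : ℝ) : Prop :=
  (∀ v, v ∉ S → Gd (bc F f) d v) ∧
    (∀ v ∈ S, (B v).eval (((nm v : ℕ) : ℂ) ^ (-((2 : ℂ) + τ * I))) ≠ 0)

/-- the logarithmic size -/
noncomputable def XX (f : Fin r → (𝓞 K)[X]) (F : Type) [Field F] [NumberField F] [Algebra K F]
    (d : Fin r → 𝓞 F) (S : Finset (HeightOneSpectrum (𝓞 F)))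
    (B : HeightOneSpectrum (𝓞 F) → ℂ[X]) (τ : ℝ) (ε : ℝ) : ℝ :=
  Real.log ‖L2 (bc F f) d S B (2 + τ * I + ε)‖ / Real.log (1 / ε)

/-- the expected order with the opposite sign -/
noncomputable def ex (r : ℕ) (τ : ℝ) : ℝ := by
  classical
  exact if τ = 0 then (r : ℝ) else 0

variable {F : Type} [Field F] [NumberField F] [Algebra K F]

theorem XX_isBigO {f : Fin r → (𝓞 K)[X]} (hodd : ∀ i, Odd (f i).natDegree)
    (h3 : ∀ i, 3 ≤ (f i).natDegree) {d : Fin r → 𝓞 F}
    {S : Finset (HeightOneSpectrum (𝓞 F))} {B : HeightOneSpectrum (𝓞 F) → ℂ[X]} {τ : ℝ}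
    (h : Adm f F d S B τ) : ∃ C : ℝ, ∀ᶠ ε : ℝ in 𝓝[>] 0, |XX f F d S B τ ε| ≤ C := by
  classical
  obtain ⟨_, h1⟩ := one_log hodd h3 h.1 B τ h.2
  have h2 : (fun ε : ℝ => ∑ j ∈ pairs r,
      (sysH K).E ε fun x : HX K => (ttH f j x * conj (vv K d τ j x)).re) =O[𝓝[>] 0] LL := by
    have e1 : ∀ j ∈ pairs r, (fun ε : ℝ => (sysH K).E ε fun x : HX K =>
        (ttH f j x * conj (vv K d τ j x)).re) =O[𝓝[>] 0] LL := by
      intro j _
      have hb : ∀ x : HX K, |(ttH f j x * conj (vv K d τ j x)).re| ≤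
          bb f j * Module.finrank ℚ F := by
        intro x
        refine (Complex.abs_re_le_norm _).trans ?_
        rw [norm_mul, Complex.norm_conj]
        exact mul_le_mul (norm_ttH hodd h3 j x) (norm_vv d τ j x) (norm_nonneg _)
          (bb_pos h3 j).le
      have e2 : (fun ε : ℝ => (sysH K).E ε fun x : HX K =>
          (ttH f j x * conj (vv K d τ j x)).re) =O[𝓝[>] 0] (sysH K).lam := by
        refine IsBigO.of_bound (bb f j * Module.finrank ℚ F) ?_
        filter_upwards [self_mem_nhdsWithin] with ε hε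
        have hε' : (0 : ℝ) < ε := hε
        rw [Real.norm_eq_abs, Real.norm_eq_abs, abs_of_nonneg (lam_nonneg (sysH K) ε)]
        refine (abs_E_le (sysH K) hε' hb).trans ?_
        exact (sysH K).E_le hε' (fun x => by rw [abs_abs]; exact hb x) hb
      exact e2.trans (lamS_isBigO (sysH K))
    have := IsBigO.sum e1
    refine this.congr_left fun ε => ?_
    rw [Finset.sum_apply]
  have h3' : (fun ε : ℝ => (if τ = 0 then (r : ℝ) else 0) * LL ε) =O[𝓝[>] 0] LL :=
    (isBigO_refl LL (𝓝[>] 0)).const_mul_left _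
  have h4 : (fun ε : ℝ => Real.log ‖L2 (bc F f) d S B (2 + τ * I + ε)‖) =O[𝓝[>] 0] LL := by
    refine ((h1.isBigO.add h3').add h2).congr_left fun ε => ?_
    ring
  obtain ⟨C, hC⟩ := h4.bound
  refine ⟨C, ?_⟩
  filter_upwards [hC, LL_tendsto.eventually_gt_atTop 0] with ε h5 h6
  unfold XX
  change |_ / LL ε| ≤ C
  rw [abs_div, abs_of_pos h6, div_le_iff₀ h6]
  rwa [Real.norm_eq_abs, Real.norm_eq_abs, abs_of_pos h6] at h5

theorem exists_lim {X : ℝ → ℝ} (h : ∃ C : ℝ, ∀ᶠ ε : ℝ in 𝓝[>] 0, |X ε| ≤ C)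
    (U : Ultrafilter ℝ) (hU : (U : Filter ℝ) ≤ 𝓝[>] 0) : ∃ x : ℝ, Tendsto X U (𝓝 x) := by
  obtain ⟨C, hC⟩ := h
  have h1 : ∀ᶠ ε in (U : Filter ℝ), X ε ∈ Set.Icc (-C) C := by
    filter_upwards [hU hC] with ε hε
    exact abs_le.1 hε
  have h2 : ((U.map X : Ultrafilter ℝ) : Filter ℝ) ≤ 𝓟 (Set.Icc (-C) C) := by
    rw [Filter.le_principal_iff]
    exact h1
  obtain ⟨x, _, hx⟩ := (isCompact_Icc (a := -C) (b := C)).ultrafilter_le_nhds (U.map X) h2
  exact ⟨x, hx⟩

open Classical in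
/-- the limit of the logarithmic size along an ultrafilter -/
noncomputable def ul (U : Ultrafilter ℝ) (X : ℝ → ℝ) : ℝ :=
  if h : ∃ x : ℝ, Tendsto X U (𝓝 x) then h.choose else 0

theorem tendsto_ul {X : ℝ → ℝ} (h : ∃ C : ℝ, ∀ᶠ ε : ℝ in 𝓝[>] 0, |X ε| ≤ C)
    (U : Ultrafilter ℝ) (hU : (U : Filter ℝ) ≤ 𝓝[>] 0) : Tendsto X U (𝓝 (ul U X)) := by
  have h1 := exists_lim h U hU
  unfold ul
  rw [dif_pos h1]
  exact h1.choose_spec

variable (f : Fin r → (𝓞 K)[X])

/-- a combination of at most two `L`-functions -/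
structure VD where
  F : Bool → IntermediateField K (Om K)
  nf : ∀ b, NumberField (F b)
  d : ∀ b, Fin r → 𝓞 (F b)
  hd : ∀ b i, d b i ≠ 0
  s : Bool → ℤ
  τ : ℝ
  S : ∀ b, Finset (HeightOneSpectrum (𝓞 (F b)))
  B : ∀ b, HeightOneSpectrum (𝓞 (F b)) → ℂ[X]
  adm : ∀ b, Adm f (F b) (d b) (S b) (B b) τ

variable {f}

instance VD.instNF (A : VD f) (b : Bool) : NumberField (A.F b) := A.nf b

/-- the fields of the members -/
abbrev Fk (k : VD f × Bool) : Type := ↥(k.1.F k.2)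

/-- the twists of the members -/
abbrev dk (k : VD f × Bool) : Fin r → 𝓞 (Fk k) := k.1.d k.2

/-- the heights of the members -/
abbrev τk (k : VD f × Bool) : ℝ := k.1.τ

/-- the Gram matrix of the members -/
noncomputable def GG (k l : VD f × Bool) : ℝ :=
  Gm (κ := VD f × Bool) f Fk dk τk k l

/-- the inner product of two combinations -/
noncomputable def ip (A B : VD f) : ℝ :=
  ∑ b : Bool, ∑ c : Bool, (A.s b : ℝ) * (B.s c : ℝ) * GG (A, b) (B, c)

/-- the logarithmic size of a member -/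
noncomputable def VD.X (A : VD f) (b : Bool) (ε : ℝ) : ℝ :=
  XX f (A.F b) (A.d b) (A.S b) (A.B b) A.τ ε

/-- the value of a combination -/
noncomputable def VD.val (U : Ultrafilter ℝ) (A : VD f) : ℝ :=
  ∑ b : Bool, (A.s b : ℝ) * (ul U (A.X b) - ex r A.τ)

theorem vd_ineq (hodd : ∀ i, Odd (f i).natDegree)
    (h3 : ∀ i, 3 ≤ (f i).natDegree) (U : Ultrafilter ℝ) (hU : (U : Filter ℝ) ≤ 𝓝[>] 0)
    (T : Finset (VD f)) (a : VD f → ℝ) :
    (∑ A ∈ T, a A * A.val U) ^ 2 ≤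
      (∑ j ∈ pairs r, bb f j) * ∑ A ∈ T, ∑ B ∈ T, a A * a B * ip A B := by
  classical
  have hmain := fun (η : ℝ) (hη : 0 < η) => main_ineq hodd h3 (T ×ˢ (Finset.univ : Finset Bool))
    Fk dk τk (fun k _ i => k.1.hd k.2 i) (fun k => k.1.S k.2) (fun k _ => (k.1.adm k.2).1)
    (fun k => k.1.B k.2) (fun k _ => (k.1.adm k.2).2) (fun k => a k.1 * k.1.s k.2) hη
  have hlim : Tendsto (fun ε : ℝ => (∑ k ∈ T ×ˢ (Finset.univ : Finset Bool),
      (a k.1 * k.1.s k.2) * (k.1.X k.2 ε - ex r k.1.τ)) ^ 2) U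
      (𝓝 ((∑ k ∈ T ×ˢ (Finset.univ : Finset Bool),
        (a k.1 * k.1.s k.2) * (ul U (k.1.X k.2) - ex r k.1.τ)) ^ 2)) :=
    (tendsto_finsetSum _ fun k _ =>
      (((tendsto_ul (XX_isBigO hodd h3 (k.1.adm k.2)) U hU).sub_const _).const_mul _)).pow 2
  have hle : ∀ η : ℝ, 0 < η → (∑ k ∈ T ×ˢ (Finset.univ : Finset Bool),
        (a k.1 * k.1.s k.2) * (ul U (k.1.X k.2) - ex r k.1.τ)) ^ 2 ≤
      (∑ j ∈ pairs r, bb f j) * (∑ k ∈ T ×ˢ (Finset.univ : Finset Bool),
        ∑ l ∈ T ×ˢ (Finset.univ : Finset Bool),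
      (a k.1 * k.1.s k.2) * (a l.1 * l.1.s l.2) * Gm (κ := VD f × Bool) f Fk dk τk k l) + η := by
    intro η hη
    refine le_of_tendsto hlim ?_
    have := hU (hmain η hη)
    filter_upwards [this] with ε hε
    unfold ex
    exact hε
  have h1 := le_of_forall_pos_le_add hle
  have e1 : ∑ k ∈ T ×ˢ (Finset.univ : Finset Bool), (a k.1 * k.1.s k.2) *
      (ul U (k.1.X k.2) - ex r k.1.τ) = ∑ A ∈ T, a A * A.val U := by
    rw [Finset.sum_product]
    refine Finset.sum_congr rfl fun A hA => ?_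
    unfold VD.val
    rw [Finset.mul_sum]
    refine Finset.sum_congr rfl fun b _ => ?_
    rw [mul_assoc]
  have e2 : ∑ k ∈ T ×ˢ (Finset.univ : Finset Bool), ∑ l ∈ T ×ˢ (Finset.univ : Finset Bool),
      (a k.1 * k.1.s k.2) * (a l.1 * l.1.s l.2) * Gm (κ := VD f × Bool) f Fk dk τk k l =
      ∑ A ∈ T, ∑ B ∈ T, a A * a B * ip A B := by
    rw [Finset.sum_product]
    refine Finset.sum_congr rfl fun A hA => ?_
    have e3 : ∀ b : Bool, ∑ l ∈ T ×ˢ (Finset.univ : Finset Bool),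
        (a A * A.s b) * (a l.1 * l.1.s l.2) * Gm (κ := VD f × Bool) f Fk dk τk (A, b) l =
        ∑ B ∈ T, ∑ c : Bool, (a A * A.s b) * (a B * B.s c) * GG (A, b) (B, c) := by
      intro b
      rw [Finset.sum_product]
      rfl
    rw [Finset.sum_congr rfl fun b _ => e3 b, Finset.sum_comm]
    refine Finset.sum_congr rfl fun B hB => ?_
    unfold ip
    rw [Finset.mul_sum]
    refine Finset.sum_congr rfl fun b _ => ?_
    rw [Finset.mul_sum]
    refine Finset.sum_congr rfl fun c _ => ?_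
    ring
  rw [← e1, ← e2]
  exact h1

/-- exceptional combinations -/
def Exc (U : Ultrafilter ℝ) (Q : VD f → Prop) (n k N : ℕ) (A : VD f) : Prop :=
  1 ≤ k * |A.val U| ∧ ip A A ≤ n * N ∧ Q A

theorem exc_card (hodd : ∀ i, Odd (f i).natDegree)
    (h3 : ∀ i, 3 ≤ (f i).natDegree) (U : Ultrafilter ℝ) (hU : (U : Filter ℝ) ≤ 𝓝[>] 0)
    (Q : VD f → Prop) (n k N : ℕ) (hN : (N : ℝ) = ∑ j ∈ pairs r, bb f j)
    (T : Finset (VD f)) (hT : ∀ A ∈ T, Exc U Q n k N A)
    (horth : ∀ A ∈ T, ∀ B ∈ T, A ≠ B → ip A B = 0) : T.card ≤ n * (k * N) ^ 2 := by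
  classical
  have h1 := orth_bound T (fun A => A.val U) ip N n
    (Nat.cast_nonneg N) (Nat.cast_nonneg n)
    (fun c => by rw [hN]; exact vd_ineq hodd h3 U hU T c)
    (fun A hA => (hT A hA).2.1) horth
  have h2 : (T.card : ℝ) ≤ k ^ 2 * ∑ A ∈ T, (A.val U) ^ 2 := by
    rw [Finset.card_eq_sum_ones, Finset.mul_sum]
    push_cast
    refine Finset.sum_le_sum fun A hA => ?_
    have h4 := (hT A hA).1
    have h5 : (k : ℝ) ^ 2 * (A.val U) ^ 2 = (k * |A.val U|) ^ 2 := by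
      rw [mul_pow, sq_abs]
    rw [h5]
    exact one_le_pow₀ h4
  have h3 : (T.card : ℝ) ≤ k ^ 2 * (n * N ^ 2) :=
    h2.trans (mul_le_mul_of_nonneg_left h1 (by positivity))
  have h4 : ((n * (k * N) ^ 2 : ℕ) : ℝ) = k ^ 2 * (n * N ^ 2) := by
    push_cast
    ring
  rw [← h4] at h3
  exact_mod_cast h3

/-- a maximal orthogonal family of exceptional combinations -/
theorem exists_max (hodd : ∀ i, Odd (f i).natDegree)
    (h3 : ∀ i, 3 ≤ (f i).natDegree) (U : Ultrafilter ℝ) (hU : (U : Filter ℝ) ≤ 𝓝[>] 0)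
    (Q : VD f → Prop) (n k N : ℕ) (hN : (N : ℝ) = ∑ j ∈ pairs r, bb f j) :
    ∃ T : Finset (VD f), T.card ≤ n * (k * N) ^ 2 ∧ (∀ A ∈ T, Q A) ∧
      ∀ B : VD f, Exc U Q n k N B → ¬ ∀ A ∈ T, ip A B = 0 ∧ ip B A = 0 := by
  classical
  by_contra hcon
  push Not at hcon
  have key : ∀ l : ℕ, ∃ T : Finset (VD f), T.card = l ∧ (∀ A ∈ T, Exc U Q n k N A) ∧
      ∀ A ∈ T, ∀ B ∈ T, A ≠ B → ip A B = 0 := by
    intro l
    induction l with
    | zero => exact ⟨∅, rfl, by simp, by simp⟩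
    | succ l ih =>
      obtain ⟨T, hc, hT, ho⟩ := ih
      obtain ⟨B, hB, hBo⟩ := hcon T (exc_card hodd h3 U hU Q n k N hN T hT ho)
        (fun A hA => (hT A hA).2.2)
      have hBT : B ∉ T := by
        intro hBT
        have h1 := vd_ineq hodd h3 U hU {B} (fun _ => 1)
        simp only [Finset.sum_singleton, one_mul] at h1
        rw [(hBo B hBT).1, mul_zero] at h1
        have h2 := pow_eq_zero_iff (two_ne_zero) |>.1 (le_antisymm h1 (sq_nonneg _))
        have h3 := hB.1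
        rw [h2, abs_zero, mul_zero] at h3
        linarith
      refine ⟨insert B T, ?_, ?_, ?_⟩
      · rw [Finset.card_insert_of_notMem hBT, hc]
      · intro A hA
        rcases Finset.mem_insert.1 hA with rfl | hA
        · exact hB
        · exact hT A hA
      · intro A hA A' hA' hne
        rcases Finset.mem_insert.1 hA with h1 | h1
        · rcases Finset.mem_insert.1 hA' with h2 | h2
          · exact absurd (h1.trans h2.symm) hne
          · rw [h1]
            exact (hBo A' h2).2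
        · rcases Finset.mem_insert.1 hA' with h2 | h2
          · rw [h2]
            exact (hBo A h1).1
          · exact ho A h1 A' h2 hne
  obtain ⟨T, hc, hT, ho⟩ := key (n * (k * N) ^ 2 + 1)
  have := exc_card hodd h3 U hU Q n k N hN T hT ho
  omega

end

end Pool.Agent.W353.TP
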