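import Pool.Agent.H26.Lib.R_seed8.W353.TP.RelEx

/-! Only finitely many twists over the subfields of `M` matter. -/

set_option autoImplicit false

namespace Pool.Agent.W353.TP

open NumberField
open Pool.Agent.H126T (pairs)

section
variable {K : Type} [Field K] [NumberField K] {r : ℕ}

theorem mem_of_fix (M : IntermediateField K (Om K)) [FiniteDimensional K M] [Normal K M]
    (G : IntermediateField K (Om K)) (x : M)
    (h : ∀ σ : M ≃ₐ[K] M, (∀ y : M, (y : Om K) ∈ G → σ y = y) → σ x = x) : (x : Om K) ∈ G := by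
  have hsep : Algebra.IsSeparable K M := inferInstance
  have hG : IsGalois K M := IsGalois.mk
  have h1 := IsGalois.fixedField_fixingSubgroup (G.comap M.val)
  have h2 : x ∈ IntermediateField.fixedField
      (IntermediateField.fixingSubgroup (G.comap M.val)) := by
    rw [IntermediateField.mem_fixedField_iff]
    intro σ hσ
    apply h
    intro y hy
    rw [IntermediateField.mem_fixingSubgroup_iff] at hσ
    exact hσ y hy
  rw [h1] at h2
  exact h2

/-- twists over subfields of `M` -/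
structure Sub (M : IntermediateField K (Om K)) (r : ℕ) where
  G : IntermediateField K (Om K)
  le : G ≤ M
  nf : NumberField G
  e : Fin r → 𝓞 G
  he : ∀ i, e i ≠ 0

/-- the values of the invariants of a twist -/
abbrev Inv (M : IntermediateField K (Om K)) (r : ℕ) : Type :=
  ((M ≃ₐ[K] M) → Prop) × (Fin r × Fin r → Prop) × (Fin r × Fin r → (M ≃ₐ[K] M) → Prop)

/-- the invariants of a twist -/
def Sub.ty {M : IntermediateField K (Om K)} (s : Sub M r) : Inv M r :=
  (fun σ => ∀ x : M, (x : Om K) ∈ s.G → σ x = x, fun j => ∃ t ∈ M, t ^ 2 = pr s.e j,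
    fun j σ => ∃ t : M, (t : Om K) ^ 2 = pr s.e j ∧ σ t = t)

theorem ty_field {M : IntermediateField K (Om K)} [FiniteDimensional K M] [Normal K M]
    {s s' : Sub M r} (h : s.ty = s'.ty) : s.G ≤ s'.G := by
  intro x hx
  have h1 : ∀ σ : M ≃ₐ[K] M, (∀ x : M, (x : Om K) ∈ s.G → σ x = x) =
      (∀ x : M, (x : Om K) ∈ s'.G → σ x = x) := fun σ => congrFun (congrArg Prod.fst h) σ
  refine mem_of_fix M s'.G ⟨x, s.le hx⟩ fun σ hσ => ?_
  have h2 := hσ
  rw [← h1 σ] at h2
  exact h2 ⟨x, s.le hx⟩ hx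

theorem ty_in {M : IntermediateField K (Om K)} {s s' : Sub M r} (h : s.ty = s'.ty)
    (j : Fin r × Fin r) : (∃ t ∈ M, t ^ 2 = pr s.e j) ↔ (∃ t ∈ M, t ^ 2 = pr s'.e j) :=
  iff_of_eq (congrFun (congrArg (fun T : Inv M r => T.2.1) h) j)

theorem pr_mem {G : IntermediateField K (Om K)} (e : Fin r → 𝓞 G) (j : Fin r × Fin r) :
    pr e j ∈ G := ((e j.1 * e j.2 : 𝓞 G) : G).2

theorem ty_sq {M : IntermediateField K (Om K)} [FiniteDimensional K M] [Normal K M]
    {s s' : Sub M r} (h : s.ty = s'.ty) (j : Fin r × Fin r) (hj : ∃ t ∈ M, t ^ 2 = pr s.e j) :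
    ∃ u ∈ s.G, u ^ 2 = pr s.e j * pr s'.e j := by
  have hG : s.G = s'.G := le_antisymm (ty_field h) (ty_field h.symm)
  obtain ⟨t, htM, ht⟩ := hj
  obtain ⟨t', htM', ht'⟩ := (ty_in h j).1 ⟨t, htM, ht⟩
  refine ⟨t * t', ?_, by rw [mul_pow, ht, ht']⟩
  have key : ∀ (u u' : M) (p p' : Om K), (u : Om K) ^ 2 = p → (u' : Om K) ^ 2 = p →
      u = u' ∨ u = -u' := by
    intro u u' p p' h1 h2
    have h3 : u ^ 2 = u' ^ 2 := Subtype.ext (by push_cast; rw [h1, h2])
    exact sq_eq_sq_iff_eq_or_eq_neg.1 h3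
  refine mem_of_fix M s.G (⟨t, htM⟩ * ⟨t', htM'⟩) fun σ hσ => ?_
  have h1 : ∀ (u : M) (p : Om K), p ∈ s.G → (u : Om K) ^ 2 = p → σ u = u ∨ σ u = -u := by
    intro u p hp hu
    refine key (σ u) u p p ?_ hu
    have h2 : u ^ 2 = ⟨p, s.le hp⟩ := Subtype.ext (by push_cast; exact hu)
    have h3 : (σ u) ^ 2 = ⟨p, s.le hp⟩ := by
      rw [← map_pow, h2]
      exact hσ _ hp
    have := congrArg (fun x : M => (x : Om K)) h3
    push_cast at this
    exact this
  have h2 : (∃ u : M, (u : Om K) ^ 2 = pr s.e j ∧ σ u = u) =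
      (∃ u : M, (u : Om K) ^ 2 = pr s'.e j ∧ σ u = u) :=
    congrFun (congrFun (congrArg (fun T : Inv M r => T.2.2) h) j) σ
  have h3 : ∀ (v : M) (p : Om K), p ∈ s.G → (v : Om K) ^ 2 = p →
      ((∃ u : M, (u : Om K) ^ 2 = p ∧ σ u = u) ↔ σ v = v) := by
    intro v p hp hv
    constructor
    · rintro ⟨u, hu, hσu⟩
      rcases key v u p p hv hu with rfl | rfl
      · exact hσu
      · rw [map_neg, hσu]
    · intro h
      exact ⟨v, hv, h⟩
  have h4 := h3 ⟨t, htM⟩ _ (pr_mem s.e j) ht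
  have h5 := h3 ⟨t', htM'⟩ _ (by rw [hG]; exact pr_mem s'.e j) ht'
  rw [map_mul]
  rcases h1 ⟨t, htM⟩ _ (pr_mem s.e j) ht with h6 | h6
  · have h7 : σ ⟨t', htM'⟩ = ⟨t', htM'⟩ := h5.1 (h2 ▸ h4.2 h6)
    rw [h6, h7]
  · rcases h1 ⟨t', htM'⟩ _ (by rw [hG]; exact pr_mem s'.e j) ht' with h7 | h7
    · have h8 : σ ⟨t, htM⟩ = ⟨t, htM⟩ := h4.1 (h2 ▸ h5.2 h7)
      rw [h8, h7]
    · rw [h6, h7, neg_mul_neg]

theorem finite_types (M : IntermediateField K (Om K)) [FiniteDimensional K M] [Normal K M] :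
    ∃ (l : ℕ) (s : Fin l → Sub M r), l ≤ 2 ^ ((r ^ 2 + 1) * (Module.finrank K M + 1)) ∧
      ∀ (F : IntermediateField K (Om K)) [NumberField F] (d : Fin r → 𝓞 F), (∀ i, d i ≠ 0) →
        ∃ a, (s a).G = F ⊓ M ∧ Rel M d (s a).e := by
  classical
  have hsep : Algebra.IsSeparable K M := inferInstance
  have hG : IsGalois K M := IsGalois.mk
  have hfin : Finite (Inv M r) := inferInstance
  let R : Set (Inv M r) := Set.range (Sub.ty : Sub M r → Inv M r)
  have hRf : Finite R := inferInstance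
  let φ := Finite.equivFin R
  have hch : ∀ a : Fin (Nat.card R), ∃ s : Sub M r, s.ty = (φ.symm a : Inv M r) :=
    fun a => (φ.symm a).2
  choose s hs using hch
  refine ⟨Nat.card R, s, ?_, ?_⟩
  · have h1 : Nat.card R ≤ Nat.card (Inv M r) :=
      Nat.card_le_card_of_injective _ Subtype.val_injective
    refine h1.trans ?_
    have hP : Nat.card Prop = 2 := by
      rw [Nat.card_eq_fintype_card]
      exact Fintype.card_prop
    have hM : Nat.card (M ≃ₐ[K] M) = Module.finrank K M := IsGalois.card_aut_eq_finrank K M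
    have hr : Nat.card (Fin r × Fin r) = r ^ 2 := by
      rw [Nat.card_prod, Nat.card_eq_fintype_card, Fintype.card_fin, sq]
    rw [Nat.card_prod, Nat.card_prod, Nat.card_fun, Nat.card_fun, Nat.card_fun, Nat.card_fun,
      hP, hM, hr, ← pow_mul, ← pow_add, ← pow_add]
    refine Nat.pow_le_pow_right (by norm_num) ?_
    nlinarith [Nat.zero_le r]
  · intro F _ d hd
    have hle : F ⊓ M ≤ M := inf_le_right
    have hF : FiniteDimensional K (F ⊓ M : IntermediateField K (Om K)) :=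
      FiniteDimensional.of_injective (IntermediateField.inclusion hle).toLinearMap
        (IntermediateField.inclusion_injective hle)
    have hnf : NumberField (F ⊓ M : IntermediateField K (Om K)) :=
      NumberField.of_module_finite K _
    obtain ⟨e, he, hR⟩ := exists_rel M F (F ⊓ M) rfl d hd
    let s₀ : Sub M r := ⟨F ⊓ M, inf_le_right, hnf, e, he⟩
    let a := φ ⟨s₀.ty, Set.mem_range_self s₀⟩
    have ha : (s a).ty = s₀.ty := by
      rw [hs a, φ.symm_apply_apply]
    have hGa : (s a).G = F ⊓ M := le_antisymm (ty_field ha) (ty_field ha.symm)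
    refine ⟨a, hGa, fun j hj => ?_⟩
    rcases hR j hj with ⟨⟨u, huF, hu⟩, ht⟩ | ⟨h1, h2⟩
    · left
      have ht0 : ∃ t ∈ M, t ^ 2 = pr s₀.e j := ht
      obtain ⟨v, hvG, hv⟩ := ty_sq (s := s₀) (s' := s a) ha.symm j ht0
      have hvF : v ∈ F := (inf_le_left : F ⊓ M ≤ F) hvG
      have h0 : pr s₀.e j ≠ 0 := by
        rw [pr_mul]
        refine mul_ne_zero ?_ ?_
        · intro h
          apply he j.1
          have h1 : (e j.1 : (F ⊓ M : IntermediateField K (Om K))) = 0 := Subtype.ext h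
          rwa [RingOfIntegers.coe_eq_zero_iff] at h1
        · intro h
          apply he j.2
          have h1 : (e j.2 : (F ⊓ M : IntermediateField K (Om K))) = 0 := Subtype.ext h
          rwa [RingOfIntegers.coe_eq_zero_iff] at h1
      refine ⟨⟨u * v / pr s₀.e j, div_mem (mul_mem huF hvF)
        ((inf_le_left : F ⊓ M ≤ F) (pr_mem s₀.e j)), ?_⟩, (ty_in ha.symm j).1 ht0⟩
      rw [div_pow, mul_pow, hu, hv]
      change pr d j * pr s₀.e j * (pr s₀.e j * pr (s a).e j) / pr s₀.e j ^ 2 = _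
      field_simp
    · right
      refine ⟨h1, fun y hy hyy => ?_⟩
      obtain ⟨t, ht, htt⟩ := (ty_in ha j).1 ⟨y, hy, hyy⟩
      exact h2 t ht htt

end

end Pool.Agent.W353.TP
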