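import Pool.Agent.H26.Lib.R_seed8.W353.TP.Emb

/-! Kummer theory: twists that become squares in `F M` come from `F ∩ M`. -/

set_option autoImplicit false

namespace Pool.Agent.W353.TP

open NumberField IntermediateField

section
variable {K : Type} [Field K] [NumberField K]

/-- automorphisms fixing `F` are determined on `F(y)` by the image of `y` -/
theorem agree_adjoin (F : IntermediateField K (Om K)) (y : Om K) (g g' : Om K ≃ₐ[K] Om K)
    (hg : ∀ x ∈ F, g x = x) (hg' : ∀ x ∈ F, g' x = x) (hy : g y = g' y) {x : Om K}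
    (hx : x ∈ F ⊔ adjoin K {y}) : g x = g' x := by
  have h1 : ((g' : Om K ≃ₐ[K] Om K).symm * g) ∈ (F ⊔ adjoin K {y}).fixingSubgroup := by
    rw [IntermediateField.fixingSubgroup_sup]
    refine ⟨(mem_fixingSubgroup_iff _ _).2 fun z hz => ?_, ?_⟩
    · change g'.symm (g z) = z
      rw [hg z hz, AlgEquiv.symm_apply_eq, hg' z hz]
    · have h2 : adjoin K {y} ≤ fixedField (Subgroup.zpowers (g'.symm * g)) := by
        rw [adjoin_simple_le_iff, mem_fixedField_iff]
        intro k hk
        obtain ⟨m, rfl⟩ := Subgroup.mem_zpowers_iff.1 hk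
        have h4 : (g'.symm * g) ∈ MulAction.stabilizer (Om K ≃ₐ[K] Om K) y := by
          change g'.symm (g y) = y
          rw [hy, AlgEquiv.symm_apply_apply]
        exact (MulAction.stabilizer (Om K ≃ₐ[K] Om K) y).zpow_mem h4 m
      refine (mem_fixingSubgroup_iff _ _).2 fun z hz => ?_
      exact (mem_fixedField_iff _ _).1 (h2 hz) _ (Subgroup.mem_zpowers _)
  have h2 := (mem_fixingSubgroup_iff _ _).1 h1 x hx
  change g'.symm (g x) = x at h2
  rw [AlgEquiv.symm_apply_eq] at h2
  exact h2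

theorem mem_of_fixed (F : IntermediateField K (Om K)) {x : Om K}
    (h : ∀ g : Om K ≃ₐ[K] Om K, (∀ z ∈ F, g z = z) → g x = x) : x ∈ F := by
  have hF := InfiniteGalois.fixedField_fixingSubgroup F
  rw [← hF, mem_fixedField_iff]
  intro g hg
  exact h g ((mem_fixingSubgroup_iff _ _).1 hg)

/-- **Descent of a Kummer class.** -/
theorem kummer (F M : IntermediateField K (Om K)) [FiniteDimensional K M] [Normal K M]
    {d y : Om K} (hd : d ∈ F) (hd0 : d ≠ 0) (hy : y ∈ F ⊔ M) (hyd : y ^ 2 = d) :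
    ∃ t ∈ M, t ≠ 0 ∧ t ^ 2 ∈ F ∧ ∃ u ∈ F, u ^ 2 = d * t ^ 2 := by
  have hy0 : y ≠ 0 := by
    rintro rfl
    rw [zero_pow two_ne_zero] at hyd
    exact hd0 hyd.symm
  have hpm : ∀ g : Om K ≃ₐ[K] Om K, (∀ z ∈ F, g z = z) → g y = y ∨ g y = -y := by
    intro g hg
    have h1 : (g y) ^ 2 = y ^ 2 := by
      rw [← map_pow, hyd, hg d hd]
    exact sq_eq_sq_iff_eq_or_eq_neg.1 h1
  by_cases hyF : y ∈ F
  · exact ⟨1, one_mem _, one_ne_zero, by rw [one_pow]; exact one_mem _, y, hyF,
      by rw [hyd, one_pow, mul_one]⟩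
  · obtain ⟨g0, hg0, hg0y⟩ : ∃ g : Om K ≃ₐ[K] Om K, (∀ z ∈ F, g z = z) ∧ g y = -y := by
      by_contra hcon
      push Not at hcon
      exact hyF (mem_of_fixed F fun g hg => (hpm g hg).resolve_right (hcon g hg))
    have hyy : -y ≠ y := by
      intro h
      apply hy0
      have : (2 : Om K) * y = 0 := by linear_combination -h
      exact (mul_eq_zero.1 this).resolve_left two_ne_zero
    -- an element of `M ∩ F(y)` outside `F`
    obtain ⟨t0, ht0, ht0M, ht0F⟩ : ∃ t0 ∈ F ⊔ adjoin K {y}, t0 ∈ M ∧ t0 ∉ F := by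
      by_contra hcon
      push Not at hcon
      obtain ⟨g, hg1, hg2⟩ := gal_ext (F ⊔ adjoin K {y}) M g0 (fun x hx hxM =>
        hg0 x (hcon x hx hxM))
      have h1 : g y = y := hg1 y ((le_sup_right : adjoin K {y} ≤ F ⊔ adjoin K {y})
        (mem_adjoin_simple_self K y))
      have h2 : ∀ x ∈ F ⊔ M, g x = g0 x := by
        intro x hx
        have h3 : (g0.symm * g) ∈ (F ⊔ M).fixingSubgroup := by
          rw [IntermediateField.fixingSubgroup_sup]
          refine ⟨(mem_fixingSubgroup_iff _ _).2 fun z hz => ?_,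
            (mem_fixingSubgroup_iff _ _).2 fun z hz => ?_⟩
          · change g0.symm (g z) = z
            rw [hg1 z ((le_sup_left : F ≤ F ⊔ adjoin K {y}) hz), AlgEquiv.symm_apply_eq, hg0 z hz]
          · change g0.symm (g z) = z
            rw [hg2 z hz, AlgEquiv.symm_apply_apply]
        have h4 := (mem_fixingSubgroup_iff _ _).1 h3 x hx
        change g0.symm (g x) = x at h4
        rw [AlgEquiv.symm_apply_eq] at h4
        exact h4
      have h3 := h2 y hy
      rw [h1, hg0y] at h3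
      exact hyy h3.symm
    have hne : g0 t0 ≠ t0 := by
      intro h
      apply ht0F
      refine mem_of_fixed F fun g hg => ?_
      rcases hpm g hg with h1 | h1
      · have := agree_adjoin F y g (AlgEquiv.refl) hg (fun z _ => rfl) h1 ht0
        exact this
      · rw [agree_adjoin F y g g0 hg hg0 (by rw [h1, hg0y]) ht0, h]
    have hgg : g0 (g0 t0) = t0 := by
      have h1 : (g0 * g0) t0 = (AlgEquiv.refl : Om K ≃ₐ[K] Om K) t0 := by
        refine agree_adjoin F y (g0 * g0) AlgEquiv.refl (fun z hz => ?_) (fun z _ => rfl) ?_ ht0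
        · change g0 (g0 z) = z
          rw [hg0 z hz, hg0 z hz]
        · change g0 (g0 y) = y
          rw [hg0y, map_neg, hg0y, neg_neg]
      exact h1
    have hM : ∀ (g : Om K ≃ₐ[K] Om K) {x : Om K}, x ∈ M → g x ∈ M := by
      intro g x hx
      have h := IntermediateField.normal_iff_forall_map_le'.1 (inferInstance : Normal K M) g
      exact h ⟨x, hx, rfl⟩
    set t := t0 - g0 t0 with ht
    have htne : t ≠ 0 := by
      rw [ht, sub_ne_zero]
      exact hne.symm
    have htM : t ∈ M := sub_mem ht0M (hM g0 ht0M)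
    have hact : ∀ g : Om K ≃ₐ[K] Om K, (∀ z ∈ F, g z = z) →
        (g y = y ∧ g t = t) ∨ (g y = -y ∧ g t = -t) := by
      intro g hg
      rcases hpm g hg with h1 | h1
      · left
        refine ⟨h1, ?_⟩
        have e1 : g t0 = t0 := agree_adjoin F y g AlgEquiv.refl hg (fun z _ => rfl) h1 ht0
        have e2 : g (g0 t0) = g0 t0 := by
          have : (g * g0) t0 = g0 t0 := by
            refine agree_adjoin F y (g * g0) g0 (fun z hz => ?_) hg0 ?_ ht0
            · change g (g0 z) = z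
              rw [hg0 z hz, hg z hz]
            · change g (g0 y) = g0 y
              rw [hg0y, map_neg, h1]
          exact this
        rw [ht, map_sub, e1, e2]
      · right
        refine ⟨h1, ?_⟩
        have e1 : g t0 = g0 t0 := agree_adjoin F y g g0 hg hg0 (by rw [h1, hg0y]) ht0
        have e2 : g (g0 t0) = t0 := by
          have : (g * g0) t0 = (AlgEquiv.refl : Om K ≃ₐ[K] Om K) t0 := by
            refine agree_adjoin F y (g * g0) AlgEquiv.refl (fun z hz => ?_) (fun z _ => rfl) ?_ ht0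
            · change g (g0 z) = z
              rw [hg0 z hz, hg z hz]
            · change g (g0 y) = y
              rw [hg0y, map_neg, h1, neg_neg]
          exact this
        rw [ht, map_sub, e1, e2]
        ring
    refine ⟨t, htM, htne, ?_, y * t, ?_, ?_⟩
    · refine mem_of_fixed F fun g hg => ?_
      rcases hact g hg with ⟨_, h2⟩ | ⟨_, h2⟩
      · rw [map_pow, h2]
      · rw [map_pow, h2, neg_sq]
    · refine mem_of_fixed F fun g hg => ?_
      rcases hact g hg with ⟨h1, h2⟩ | ⟨h1, h2⟩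
      · rw [map_mul, h1, h2]
      · rw [map_mul, h1, h2, neg_mul_neg]
    · rw [mul_pow, hyd]

end

section
variable (L : Type) [Field L] [NumberField L]

theorem rat_of_embeddings {x : L} (σ₀ : L →+* ℂ) (h : ∀ σ : L →+* ℂ, σ x = σ₀ x) :
    ∃ q : ℚ, (q : L) = x := by
  have h1 := NumberField.Embeddings.range_eval_eq_rootSet_minpoly L ℂ x
  have h2 : (minpoly ℚ x).rootSet ℂ = {σ₀ x} := by
    rw [← h1]
    ext z
    constructor
    · rintro ⟨σ, rfl⟩
      exact h σ
    · rintro rfl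
      exact ⟨σ₀, rfl⟩
  have hint : IsIntegral ℚ x := Algebra.IsIntegral.isIntegral x
  have h3 : Fintype.card ((minpoly ℚ x).rootSet ℂ) = (minpoly ℚ x).natDegree :=
    Polynomial.card_rootSet_eq_natDegree (minpoly.irreducible hint).separable
      (IsAlgClosed.splits _)
  have h4 : Fintype.card ((minpoly ℚ x).rootSet ℂ) = 1 := by
    rw [← Nat.card_eq_fintype_card, h2]
    exact Nat.card_unique
  rw [h4] at h3
  obtain ⟨q, hq⟩ := (minpoly.natDegree_eq_one_iff).1 h3.symm
  exact ⟨q, by rw [← hq]; simp⟩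

theorem finite_class {p : ℕ} (hp : p.Prime) :
    {q : ℕ | q.Prime ∧ ∃ s : L, s ^ 2 = (p : L) * q}.Finite := by
  classical
  by_contra hinf
  have hinf' : {q : ℕ | q.Prime ∧ ∃ s : L, s ^ 2 = (p : L) * q}.Infinite := hinf
  obtain ⟨σ₀⟩ : Nonempty (L →+* ℂ) := inferInstance
  have hch : ∀ q : ℕ, ∃ s : L, (q.Prime ∧ ∃ s : L, s ^ 2 = (p : L) * q) → s ^ 2 = (p : L) * q := by
    intro q
    by_cases h : q.Prime ∧ ∃ s : L, s ^ 2 = (p : L) * q
    · obtain ⟨s, hs⟩ := h.2
      exact ⟨s, fun _ => hs⟩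
    · exact ⟨0, fun h' => absurd h' h⟩
  choose s hs using hch
  let P : ℕ → Set (L →+* ℂ) := fun q => {σ | σ (s q) = σ₀ (s q)}
  obtain ⟨q, hq, q', hq', hne, hP⟩ := hinf'.exists_ne_map_eq_of_mapsTo
    (f := P) (t := Set.univ) (fun _ _ => Set.mem_univ _) Set.finite_univ
  have h1 := hs q hq
  have h2 := hs q' hq'
  have h3 : ∀ σ : L →+* ℂ, σ (s q * s q') = σ₀ (s q * s q') := by
    intro σ
    have e1 : σ (s q) = σ₀ (s q) ∨ σ (s q) = -σ₀ (s q) := by
      apply sq_eq_sq_iff_eq_or_eq_neg.1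
      rw [← map_pow, ← map_pow, h1]
      simp
    have e2 : σ (s q') = σ₀ (s q') ∨ σ (s q') = -σ₀ (s q') := by
      apply sq_eq_sq_iff_eq_or_eq_neg.1
      rw [← map_pow, ← map_pow, h2]
      simp
    have e3 : σ (s q) = σ₀ (s q) ↔ σ (s q') = σ₀ (s q') := by
      have : σ ∈ P q ↔ σ ∈ P q' := by rw [hP]
      exact this
    rw [map_mul, map_mul]
    by_cases h : σ (s q) = σ₀ (s q)
    · rw [h, e3.1 h]
    · rw [e1.resolve_left h, e2.resolve_left (fun h' => h (e3.2 h')), neg_mul_neg]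
  obtain ⟨x, hx⟩ := rat_of_embeddings L σ₀ h3
  have h4 : (x : L) ^ 2 = ((p : ℚ) ^ 2 * (q * q') : ℚ) := by
    rw [hx, mul_pow, h1, h2]
    push_cast
    ring
  have h5 : x ^ 2 = (p : ℚ) ^ 2 * (q * q') := by exact_mod_cast h4
  have hp0 : (p : ℚ) ≠ 0 := by exact_mod_cast hp.ne_zero
  have h6 : IsSquare (((q * q' : ℕ) : ℚ)) := by
    refine ⟨x / p, ?_⟩
    push_cast
    rw [← sq, div_pow, h5]
    field_simp
  rw [Rat.isSquare_natCast_iff] at h6
  obtain ⟨a, ha⟩ := h6
  have hqp : q.Prime := hq.1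
  have hqp' : q'.Prime := hq'.1
  have h7 : q ∣ a := by
    have : q ∣ a * a := ha ▸ dvd_mul_right q q'
    rcases hqp.dvd_mul.1 this with h | h <;> exact h
  obtain ⟨b, rfl⟩ := h7
  have h8 : q' = q * (b * b) := by
    have : q * q' = q * (q * (b * b)) := by rw [ha]; ring
    exact Nat.eq_of_mul_eq_mul_left hqp.pos this
  have h9 : q ∣ q' := ⟨b * b, h8⟩
  exact hne ((Nat.prime_dvd_prime_iff_eq hqp hqp').1 h9)

/-- many square classes that stay distinct in `L` -/
theorem many_classes (r : ℕ) : ∃ g : Fin r → ℕ, (∀ i, (g i).Prime) ∧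
    ∀ i j, i ≠ j → ∀ s : L, s ^ 2 ≠ (g i : L) * g j := by
  classical
  obtain ⟨f, hf1, hf2⟩ := exists_seq_of_forall_finset_exists (fun p : ℕ => p.Prime)
    (fun p q => ∀ s : L, s ^ 2 ≠ (p : L) * q) (fun s hs => by
      have h1 : (⋃ p ∈ s, {q : ℕ | q.Prime ∧ ∃ s : L, s ^ 2 = (p : L) * q}).Finite :=
        Set.Finite.biUnion (Finset.finite_toSet s) fun p hp => finite_class L (hs p hp)
      obtain ⟨q, hq1, hq2⟩ := Nat.infinite_setOf_prime.exists_notMem_finite h1
      refine ⟨q, hq1, fun p hp t ht => hq2 ?_⟩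
      rw [Set.mem_iUnion₂]
      exact ⟨p, hp, hq1, t, ht⟩)
  refine ⟨fun i => f i, fun i => hf1 i, fun i j hij s hs => ?_⟩
  rcases lt_or_gt_of_ne (fun h : (i : ℕ) = j => hij (Fin.ext h)) with h | h
  · exact hf2 i j h s hs
  · refine hf2 j i h s ?_
    rw [hs, mul_comm]

end

end Pool.Agent.W353.TP
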