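import Pool.Agent.H26.Lib.R_seed8.W353.TP.Orders

/-! The simple factors of `F ⊗ G` in terms of embeddings into the algebraic closure. -/

set_option autoImplicit false

namespace Pool.Agent.W353.TP

open NumberField
open scoped TensorProduct

section
variable {K : Type} [Field K] [NumberField K]

/-- notation for the algebraic closure -/
abbrev Om (K : Type) [Field K] : Type := AlgebraicClosure K

instance isGalois_Om : IsGalois K (Om K) := by
  have h1 : Algebra.IsSeparable K (Om K) := inferInstance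
  have h2 : Normal K (Om K) := inferInstance
  exact IsGalois.mk

variable (F : Type) [Field F] [NumberField F] [Algebra K F] (G : Type) [Field G] [NumberField G]
  [Algebra K G]

/-- the homomorphism of `F ⊗ G` attached to embeddings of `F` and `G` -/
noncomputable def Ph (i : F →ₐ[K] Om K) (σ : G →ₐ[K] Om K) : F ⊗[K] G →ₐ[K] Om K :=
  Algebra.TensorProduct.lift i σ (fun _ _ => Commute.all _ _)

theorem Ph_tmul (i : F →ₐ[K] Om K) (σ : G →ₐ[K] Om K) (x : F) (y : G) :
    Ph F G i σ (x ⊗ₜ y) = i x * σ y :=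
  Algebra.TensorProduct.lift_tmul _ _ _ _ _

/-- the maximal ideal of an embedding -/
noncomputable def mx (i : F →ₐ[K] Om K) (σ : G →ₐ[K] Om K) : MaximalSpectrum (F ⊗[K] G) :=
  ⟨RingHom.ker (Ph F G i σ).toRingHom, by
    have := RingHom.ker_isPrime (Ph F G i σ).toRingHom
    exact IsArtinianRing.isMaximal_of_isPrime _⟩

variable {F G}

theorem mem_mx (i : F →ₐ[K] Om K) (σ : G →ₐ[K] Om K) (t : F ⊗[K] G) :
    t ∈ (mx F G i σ).asIdeal ↔ Ph F G i σ t = 0 := Iff.rfl

theorem mx_surjective (i : F →ₐ[K] Om K) : Function.Surjective (mx F G i) := by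
  intro m
  let _ : Algebra F (Om K) := i.toRingHom.toAlgebra
  have hst : IsScalarTower K F (Om K) := IsScalarTower.of_algebraMap_eq fun x => (i.commutes x).symm
  have : Module.Finite K (Fac K F G m) := facFinK K F G m
  let q : F ⊗[K] G →ₐ[K] Fac K F G m := Ideal.Quotient.mkₐ K m.asIdeal
  have h0 : IsScalarTower K F (Fac K F G m) := inferInstance
  have hfin : Module.Finite F (Fac K F G m) := Module.Finite.of_restrictScalars_finite K F _
  have halg : Algebra.IsAlgebraic F (Fac K F G m) := Algebra.IsAlgebraic.of_finite _ _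
  let g : Fac K F G m →ₐ[F] Om K := IsAlgClosed.lift
  let g' : Fac K F G m →ₐ[K] Om K := g.restrictScalars K
  let σ : G →ₐ[K] Om K := g'.comp (q.comp Algebra.TensorProduct.includeRight)
  refine ⟨σ, ?_⟩
  have h1 : Ph F G i σ = g'.comp q := by
    apply Algebra.TensorProduct.ext
    · apply AlgHom.ext
      intro x
      change Ph F G i σ (x ⊗ₜ 1) = g (algebraMap F (Fac K F G m) x)
      rw [Ph_tmul, map_one, mul_one]
      exact (g.commutes x).symm
    · apply AlgHom.ext
      intro x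
      change Ph F G i σ (1 ⊗ₜ x) = σ x
      rw [Ph_tmul, map_one, one_mul]
  apply MaximalSpectrum.ext
  ext t
  rw [mem_mx, h1]
  change g (Ideal.Quotient.mk m.asIdeal t) = 0 ↔ _
  rw [map_eq_zero_iff g g.toRingHom.injective, Ideal.Quotient.eq_zero_iff_mem]

theorem Ph_mem (i : F →ₐ[K] Om K) (σ : G →ₐ[K] Om K) (t : F ⊗[K] G) :
    Ph F G i σ t ∈ i.fieldRange ⊔ σ.fieldRange := by
  induction t using TensorProduct.induction_on with
  | zero => rw [map_zero]; exact zero_mem _
  | tmul x y =>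
    rw [Ph_tmul]
    refine mul_mem ?_ ?_
    · exact (le_sup_left : i.fieldRange ≤ i.fieldRange ⊔ σ.fieldRange) ⟨x, rfl⟩
    · exact (le_sup_right : σ.fieldRange ≤ i.fieldRange ⊔ σ.fieldRange) ⟨y, rfl⟩
  | add x y hx hy => rw [map_add]; exact add_mem hx hy

theorem mem_Ph (i : F →ₐ[K] Om K) (σ : G →ₐ[K] Om K) {y : Om K}
    (hy : y ∈ i.fieldRange ⊔ σ.fieldRange) : ∃ t : F ⊗[K] G, Ph F G i σ t = y := by
  have h1 : (i.fieldRange ⊔ σ.fieldRange).toSubalgebra =
      i.fieldRange.toSubalgebra ⊔ σ.fieldRange.toSubalgebra :=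
    IntermediateField.sup_toSubalgebra_of_isAlgebraic _ _ (Or.inl inferInstance)
  have h2 : y ∈ i.fieldRange.toSubalgebra ⊔ σ.fieldRange.toSubalgebra := by
    rw [← h1]
    exact hy
  have h3 : i.fieldRange.toSubalgebra ⊔ σ.fieldRange.toSubalgebra ≤ (Ph F G i σ).range := by
    refine sup_le ?_ ?_
    · rintro x ⟨y, rfl⟩
      refine ⟨y ⊗ₜ 1, ?_⟩
      change Ph F G i σ (y ⊗ₜ 1) = i y
      rw [Ph_tmul, map_one, mul_one]
    · rintro x ⟨y, rfl⟩
      refine ⟨1 ⊗ₜ y, ?_⟩
      change Ph F G i σ (1 ⊗ₜ y) = σ y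
      rw [Ph_tmul, map_one, one_mul]
  exact h3 h2

theorem isSquare_iff (i : F →ₐ[K] Om K) (σ : G →ₐ[K] Om K) (D : F) (D' : G) :
    IsSquare (Ideal.Quotient.mk (mx F G i σ).asIdeal (D ⊗ₜ D')) ↔
      ∃ y ∈ i.fieldRange ⊔ σ.fieldRange, y ^ 2 = i D * σ D' := by
  constructor
  · rintro ⟨z, hz⟩
    obtain ⟨t, rfl⟩ := Ideal.Quotient.mk_surjective z
    refine ⟨Ph F G i σ t, Ph_mem i σ t, ?_⟩
    rw [← map_mul, Ideal.Quotient.eq, mem_mx, map_sub, sub_eq_zero,
      Ph_tmul, map_mul] at hz
    rw [sq]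
    exact hz.symm
  · rintro ⟨y, hy, hsq⟩
    obtain ⟨t, rfl⟩ := mem_Ph i σ hy
    refine ⟨Ideal.Quotient.mk _ t, ?_⟩
    rw [← map_mul, Ideal.Quotient.eq, mem_mx, map_sub, sub_eq_zero,
      Ph_tmul, map_mul, ← hsq, sq]

/-- the isomorphism of the images of two homomorphisms with the same kernel -/
theorem exists_aut (i : F →ₐ[K] Om K) (σ σ' : G →ₐ[K] Om K)
    (hle : ∀ t, Ph F G i σ t = 0 → Ph F G i σ' t = 0) :
    ∃ g : Om K ≃ₐ[K] Om K, ∀ t, g (Ph F G i σ t) = Ph F G i σ' t := by
  have hwd : ∀ t t', Ph F G i σ t = Ph F G i σ t' → Ph F G i σ' t = Ph F G i σ' t' := by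
    intro t t' htt
    have := hle (t - t') (by rw [map_sub, htt, sub_self])
    rw [map_sub] at this
    exact sub_eq_zero.1 this
  choose pre hpre using fun y : (i.fieldRange ⊔ σ.fieldRange : IntermediateField K (Om K)) =>
    mem_Ph i σ y.2
  let θ : (i.fieldRange ⊔ σ.fieldRange : IntermediateField K (Om K)) →ₐ[K] Om K :=
    { toFun := fun y => Ph F G i σ' (pre y)
      map_one' := by
        rw [hwd (pre 1) 1 (by rw [hpre, map_one]; rfl), map_one]
      map_mul' := fun x y => by
        rw [hwd (pre (x * y)) (pre x * pre y) (by rw [hpre, map_mul, hpre, hpre]; rfl), map_mul]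
      map_zero' := by
        rw [hwd (pre 0) 0 (by rw [hpre, map_zero]; rfl), map_zero]
      map_add' := fun x y => by
        rw [hwd (pre (x + y)) (pre x + pre y) (by rw [hpre, map_add, hpre, hpre]; rfl), map_add]
      commutes' := fun c => by
        rw [hwd (pre (algebraMap K _ c)) (algebraMap K _ c)
          (by rw [hpre, AlgHom.commutes]; rfl), AlgHom.commutes] }
  let g0 : Om K →ₐ[K] Om K := θ.liftNormal (Om K)
  have hg0 : ∀ y : (i.fieldRange ⊔ σ.fieldRange : IntermediateField K (Om K)), g0 y = θ y :=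
    fun y => θ.liftNormal_commutes (Om K) y
  have hbij : Function.Bijective g0 := Algebra.IsAlgebraic.algHom_bijective g0
  refine ⟨AlgEquiv.ofBijective g0 hbij, fun t => ?_⟩
  have h1 := hg0 ⟨Ph F G i σ t, Ph_mem i σ t⟩
  change g0 (Ph F G i σ t) = Ph F G i σ' (pre ⟨Ph F G i σ t, Ph_mem i σ t⟩) at h1
  rw [hwd _ t (hpre _)] at h1
  exact h1

/-- equality of the maximal ideals of two embeddings -/
theorem mx_eq_iff (i : F →ₐ[K] Om K) (σ σ' : G →ₐ[K] Om K) :
    mx F G i σ = mx F G i σ' ↔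
      ∃ g : Om K ≃ₐ[K] Om K, (∀ x : F, g (i x) = i x) ∧ ∀ y, g (σ y) = σ' y := by
  constructor
  · intro h
    have hle : ∀ t, Ph F G i σ t = 0 → Ph F G i σ' t = 0 := by
      intro t ht
      rw [← mem_mx] at ht ⊢
      rwa [← h]
    obtain ⟨g, hg⟩ := exists_aut i σ σ' hle
    refine ⟨g, fun x => ?_, fun y => ?_⟩
    · have := hg (x ⊗ₜ 1)
      rwa [Ph_tmul, Ph_tmul, map_one, map_one, mul_one] at this
    · have := hg (1 ⊗ₜ y)
      rwa [Ph_tmul, Ph_tmul, map_one, one_mul, one_mul] at this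
  · rintro ⟨g, hgF, hg⟩
    apply MaximalSpectrum.ext
    have h1 : ∀ t, Ph F G i σ' t = g (Ph F G i σ t) := by
      intro t
      induction t using TensorProduct.induction_on with
      | zero => rw [map_zero, map_zero, map_zero]
      | tmul x y => rw [Ph_tmul, Ph_tmul, map_mul, hgF, hg]
      | add x y hx hy => rw [map_add, map_add, map_add, hx, hy]
    ext t
    rw [mem_mx, mem_mx, h1, map_eq_zero_iff g g.injective]

end

/-- counting through two surjections with the same fibres -/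
theorem card_eq_of_factor {S A B : Type*} (a : S → A) (b : S → B) (ha : Function.Surjective a)
    (hb : Function.Surjective b) (h : ∀ s s', a s = a s' ↔ b s = b s') :
    Nat.card A = Nat.card B := by
  have h1 : Setoid.ker a = Setoid.ker b := by
    ext s s'
    exact h s s'
  have e1 := Setoid.quotientKerEquivOfSurjective a ha
  have e2 := Setoid.quotientKerEquivOfSurjective b hb
  rw [h1] at e1
  exact Nat.card_congr (e1.symm.trans e2)

section
variable {K : Type} [Field K] [NumberField K]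

/-- extension of automorphisms -/
theorem gal_ext (F M : IntermediateField K (Om K)) [FiniteDimensional K M] [Normal K M]
    (g0 : Om K ≃ₐ[K] Om K) (hg0 : ∀ x, x ∈ F → x ∈ M → g0 x = x) :
    ∃ g : Om K ≃ₐ[K] Om K, (∀ x ∈ F, g x = x) ∧ ∀ x ∈ M, g x = g0 x := by
  set H : Subgroup (M ≃ₐ[K] M) := F.fixingSubgroup.map (AlgEquiv.restrictNormalHom M) with hH
  have h1 : AlgEquiv.restrictNormalHom M g0 ∈ H := by
    rw [← IntermediateField.fixingSubgroup_fixedField H, IntermediateField.mem_fixingSubgroup_iff]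
    intro x hx
    have hxF : (x : Om K) ∈ F := by
      have hF := InfiniteGalois.fixedField_fixingSubgroup F
      rw [← hF, IntermediateField.mem_fixedField_iff]
      intro g hg
      have h2 := (IntermediateField.mem_fixedField_iff _ _).1 hx
        (AlgEquiv.restrictNormalHom M g) ⟨g, hg, rfl⟩
      have h3 := AlgEquiv.restrictNormal_commutes g M x
      have h4 : (AlgEquiv.restrictNormal g M) x = x := h2
      rw [h4] at h3
      exact h3.symm
    have h5 := hg0 x hxF x.2
    have h6 := AlgEquiv.restrictNormal_commutes g0 M x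
    apply Subtype.ext
    change algebraMap M (Om K) (AlgEquiv.restrictNormal g0 M x) = x
    rw [h6]
    exact h5
  obtain ⟨g, hg, hgg⟩ := h1
  refine ⟨g, fun x hx => ?_, fun x hx => ?_⟩
  · exact (IntermediateField.mem_fixingSubgroup_iff _ _).1 hg x hx
  · have h2 := AlgEquiv.restrictNormal_commutes g M ⟨x, hx⟩
    have h3 := AlgEquiv.restrictNormal_commutes g0 M ⟨x, hx⟩
    have h4 : AlgEquiv.restrictNormal g M = AlgEquiv.restrictNormal g0 M := hgg
    rw [h4, h3] at h2
    exact h2.symm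

/-- the modular law -/
theorem modular (F M E : IntermediateField K (Om K)) [FiniteDimensional K M] [Normal K M]
    (hE : E ≤ M) {y : Om K} (hyM : y ∈ M) (hy : y ∈ F ⊔ E) : y ∈ (F ⊓ M) ⊔ E := by
  have hF := InfiniteGalois.fixedField_fixingSubgroup ((F ⊓ M) ⊔ E)
  rw [← hF, IntermediateField.mem_fixedField_iff]
  intro g0 hg0
  rw [IntermediateField.mem_fixingSubgroup_iff] at hg0
  obtain ⟨g, hg1, hg2⟩ := gal_ext F M g0 (fun x hx hx' =>
    hg0 x ((le_sup_left : F ⊓ M ≤ (F ⊓ M) ⊔ E) ⟨hx, hx'⟩))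
  have h1 : g ∈ (F ⊔ E).fixingSubgroup := by
    rw [IntermediateField.fixingSubgroup_sup]
    refine ⟨?_, ?_⟩
    · exact (IntermediateField.mem_fixingSubgroup_iff _ _).2 hg1
    · refine (IntermediateField.mem_fixingSubgroup_iff _ _).2 fun x hx => ?_
      rw [hg2 x (hE hx)]
      exact hg0 x ((le_sup_right : E ≤ (F ⊓ M) ⊔ E) hx)
  have h2 := (IntermediateField.mem_fixingSubgroup_iff _ _).1 h1 y hy
  rw [← hg2 y hyM]
  exact h2

end

end Pool.Agent.W353.TP
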