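import Pool.Agent.H26.Lib.R_seed8.W353.TP.Pairs

/-! The Gram matrix of the quadratic characters of the finite extensions of a number field. -/

set_option autoImplicit false

namespace Pool.Agent.W353.TP

open Complex Filter Topology ComplexConjugate NumberField IsDedekindDomain Pool.Agent.H341R2
open Pool.Agent.H921R2.TatePole (nm two_le_nm R hc R_eq_hc R_le kerPrime hom_finite C0)
open scoped TensorProduct

section
variable {K : Type} [Field K] [NumberField K]

theorem low_of_negl {g : HeightOneSpectrum (𝓞 K) → ℝ} {C : ℝ} (hg : ∀ v, |g v| ≤ C)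
    (h : (sysK K).Negl g) : PNegl (low g) := by
  intro η hη
  obtain ⟨C1, h1⟩ := lamK_sub (K := K)
  filter_upwards [h (η / 2) (by positivity), h1, self_mem_nhdsWithin,
    lam_tendsto.eventually_ge_atTop
      (2 / η * (η / 2 * C1 + C * Module.finrank ℚ K * C0))] with ε h2 h3 h4 h5
  have hε : (0 : ℝ) < ε := h4
  have h6 := E_low hg hε
  have h7 := abs_sub_abs_le_abs_sub (E ε (low g)) ((sysK K).E ε g)
  rw [abs_sub_comm] at h7
  have h8 := (abs_le.1 h3).2
  have h9 := mul_le_mul_of_nonneg_left h5 (by positivity : 0 ≤ η / 2)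
  have h10 : η / 2 * (2 / η * (η / 2 * C1 + C * Module.finrank ℚ K * C0)) =
      η / 2 * C1 + C * Module.finrank ℚ K * C0 := by
    field_simp
  rw [h10] at h9
  have h11 : η / 2 * (sysK K).lam ε ≤ η / 2 * (lam ε + C1) :=
    mul_le_mul_of_nonneg_left (by linarith) (by positivity)
  linarith

theorem PNegl.finset_sum {κ : Type*} (T : Finset κ) (φ : κ → Nat.Primes → ℝ) (B : κ → ℝ)
    (hB : ∀ k ∈ T, ∀ p, |φ k p| ≤ B k) (h : ∀ k ∈ T, PNegl (φ k)) :
    PNegl fun p => ∑ k ∈ T, φ k p := by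
  classical
  induction T using Finset.induction_on with
  | empty =>
    simp only [Finset.sum_empty]
    apply PNegl.of_bdd
    exact ⟨0, Filter.Eventually.of_forall fun ε => by simp [E]⟩
  | insert a s ha ih =>
    simp only [Finset.sum_insert ha]
    refine PNegl.add (h a (Finset.mem_insert_self a s))
      (ih (fun k hk => hB k (Finset.mem_insert_of_mem hk))
        (fun k hk => h k (Finset.mem_insert_of_mem hk)))
      (hB a (Finset.mem_insert_self a s)) (B' := ∑ k ∈ s, B k) ?_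
    intro p
    refine (Finset.abs_sum_le_sum_abs _ _).trans (Finset.sum_le_sum fun k hk => ?_)
    exact hB k (Finset.mem_insert_of_mem hk) p

theorem low_abs_le {g : HeightOneSpectrum (𝓞 K) → ℝ} {C : ℝ} (hg : ∀ v, |g v| ≤ C)
    (p : Nat.Primes) : |low g p| ≤ Module.finrank ℚ K * C := by
  rw [low_kerPrime]
  refine (Finset.abs_sum_le_sum_abs _ _).trans ?_
  refine (Finset.sum_le_sum fun u _ => hg _).trans ?_
  rw [Finset.sum_const, nsmul_eq_mul, Finset.card_univ]
  have hC : 0 ≤ C := (abs_nonneg _).trans (hg ((sysK K).nonempty.some))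
  exact mul_le_mul_of_nonneg_right (by exact_mod_cast card_hom_le p) hC

variable (K) in
/-- the absolute degree -/
noncomputable def dq : ℝ := Module.finrank ℚ K

theorem low_abs_dq {g : HeightOneSpectrum (𝓞 K) → ℝ} {C : ℝ} (hg : ∀ v, |g v| ≤ C)
    (p : Nat.Primes) : |low g p| ≤ dq K * C := low_abs_le hg p

/-- the twisted character -/
noncomputable def gg (D : 𝓞 K) (τ : ℝ) (v : HeightOneSpectrum (𝓞 K)) : ℝ :=
  (chi D v : ℝ) * (((nm v : ℕ) : ℂ) ^ (-(τ * I))).re

theorem gg_abs (D : 𝓞 K) (τ : ℝ) (v : HeightOneSpectrum (𝓞 K)) : |gg D τ v| ≤ 1 := by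
  unfold gg
  rw [abs_mul]
  exact mul_le_one₀ (chi_abs D v) (abs_nonneg _) (abs_re_le _ (by have := two_le_nm v; omega) τ)

open Classical in
/-- the mean of a quadratic character of one field -/
theorem one_field {D : 𝓞 K} (hD : D ≠ 0) (τ : ℝ) :
    PNegl fun p => low (gg D τ) p - (if τ = 0 ∧ IsSquare (D : K) then 1 else 0) := by
  by_cases h : τ = 0 ∧ IsSquare (D : K)
  · simp only [if_pos h]
    obtain ⟨hτ, hsq⟩ := h
    subst hτ
    have h1 := negl_R ℚ K 0
    refine PNegl.congr h1 (B := Module.finrank ℚ K + 1)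
      (B' := Module.finrank ℚ K * 1 + 1) ?_ ?_ (N0_ne_zero hD) ?_
    · intro p
      rw [abs_mul, R_rat]
      refine (mul_le_of_le_one_right (abs_nonneg _) (abs_re_le _ p.2.pos 0)).trans ?_
      have h3 : (R K p : ℝ) ≤ Module.finrank ℚ K := by exact_mod_cast R_le (K := K) p
      have h4 : (0 : ℝ) ≤ R K p := Nat.cast_nonneg _
      rw [abs_le]
      constructor <;> push_cast <;> linarith
    · intro p
      refine (abs_sub _ _).trans ?_
      rw [abs_one]
      exact add_le_add (low_abs_le (gg_abs D 0) p) le_rfl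
    · intro p hp
      have : Fact (p : ℕ).Prime := ⟨p.2⟩
      rw [low_kerPrime]
      have h4 : ∀ u : 𝓞 K →+* ZMod (p : ℕ), gg D 0 (kerPrime p u).1.1 = 1 := by
        intro u
        unfold gg
        rw [nm_kerPrime, chi_kerPrime]
        have h5 : quadraticChar (ZMod (p : ℕ)) (u D) = 1 := by
          obtain ⟨b, hb⟩ := hsq
          have hbi : IsIntegral ℤ b := by
            apply IsIntegral.of_pow (by norm_num : 0 < 2)
            rw [sq, ← hb]
            exact RingOfIntegers.isIntegral_coe D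
          obtain ⟨b', hb'⟩ : ∃ b' : 𝓞 K, (b' : K) = b := ⟨⟨b, hbi⟩, rfl⟩
          have h6 : D = b' * b' := RingOfIntegers.ext (by
            rw [hb, ← hb']
            rfl)
          have h7 : u D ≠ 0 := by
            obtain ⟨c, hc⟩ := dvd_N0 D
            intro h0
            apply hp
            have h8 := congrArg u hc
            rw [map_mul, map_mul, h0, mul_zero, mul_zero, map_intCast,
              ZMod.intCast_zmod_eq_zero_iff_dvd] at h8
            exact h8
          rw [h6, map_mul]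
          rw [h6, map_mul] at h7
          rw [← sq]
          apply quadraticChar_sq_one'
          intro h0
          rw [h0, mul_zero] at h7
          exact h7 rfl
        rw [h5]
        simp
      rw [Finset.sum_congr rfl fun u _ => h4 u, Finset.sum_const, nsmul_eq_mul, Finset.card_univ,
        card_hom_eq, R_rat]
      simp
  · simp only [if_neg h, sub_zero]
    apply low_of_negl (gg_abs D τ)
    exact negl_chi hD τ (by tauto)

end

section
variable {K F F' : Type} [Field K] [NumberField K] [Field F] [NumberField F] [Algebra K F]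
  [Field F'] [NumberField F'] [Algebra K F']

/-- the quadratic symbol of a homomorphism to a prime field -/
noncomputable def qh (D : 𝓞 F) (x : HX F) : ℝ :=
  haveI : Fact (x.1 : ℕ).Prime := ⟨x.1.2⟩
  (quadraticChar (ZMod (x.1 : ℕ)) (x.2 D) : ℝ)

theorem qh_eq (D : 𝓞 F) (p : Nat.Primes) [Fact (p : ℕ).Prime] (ψ : 𝓞 F →+* ZMod (p : ℕ)) :
    qh D ⟨p, ψ⟩ = (quadraticChar (ZMod (p : ℕ)) (ψ D) : ℝ) := rfl

theorem qh_chi (D : 𝓞 F) (p : Nat.Primes) (ψ : 𝓞 F →+* ZMod (p : ℕ)) :
    qh D ⟨p, ψ⟩ = (chi D (kerPrime p ψ).1.1 : ℝ) := by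
  have : Fact (p : ℕ).Prime := ⟨p.2⟩
  rw [qh_eq, chi_kerPrime]

theorem qh_abs (D : 𝓞 F) (x : HX F) : |qh D x| ≤ 1 := by
  rcases x with ⟨p, ψ⟩
  rw [qh_chi]
  exact chi_abs _ _

variable (K F F') in
/-- the number of simple factors of `F ⊗ F'` in which `D ⊗ D'` is a square -/
noncomputable def inum (D : F) (D' : F') : ℕ :=
  Nat.card {m : MaximalSpectrum (F ⊗[K] F') // IsSquare (Ideal.Quotient.mk m.asIdeal (D ⊗ₜ D'))}

theorem fac_ne_zero {D : 𝓞 F} {D' : 𝓞 F'} (hD : D ≠ 0) (hD' : D' ≠ 0)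
    (m : MaximalSpectrum (F ⊗[K] F')) : iL K F F' m D * iR K F F' m D' ≠ 0 := by
  intro h
  have h1 : (Ideal.Quotient.mk m.asIdeal ((D : F) ⊗ₜ (D' : F')) : Fac K F F' m) = 0 := by
    rw [← iL_iR_coe, h]
    rfl
  have h2 : IsUnit ((D : F) ⊗ₜ[K] (D' : F')) := by
    have hD1 : (D : F) ≠ 0 := by simpa using hD
    have hD2 : (D' : F') ≠ 0 := by simpa using hD'
    refine IsUnit.of_mul_eq_one ((D : F)⁻¹ ⊗ₜ (D' : F')⁻¹) ?_
    rw [Algebra.TensorProduct.tmul_mul_tmul, mul_inv_cancel₀ hD1, mul_inv_cancel₀ hD2]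
    rfl
  have h3 := h2.map (Ideal.Quotient.mk m.asIdeal)
  rw [h1] at h3
  exact not_isUnit_zero h3

open Classical in
/-- **The Gram matrix, at the level of primes.** -/
theorem gram_low {D : 𝓞 F} {D' : 𝓞 F'} (hD : D ≠ 0) (hD' : D' ≠ 0) (τ : ℝ) :
    PNegl fun p => (∑ u : 𝓞 K →+* ZMod (p : ℕ), push K (qh D) ⟨p, u⟩ * push K (qh D') ⟨p, u⟩ *
      (((p : ℕ) : ℂ) ^ (-(τ * I))).re) - (if τ = 0 then (inum K F F' D D' : ℝ) else 0) := by
  obtain ⟨N, hN, hsum⟩ := pairs_sum K F F'
  set c : MaximalSpectrum (F ⊗[K] F') → ℝ := fun m =>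
    if τ = 0 ∧ IsSquare ((iL K F F' m D * iR K F F' m D' : 𝓞 (Fac K F F' m)) : Fac K F F' m)
      then 1 else 0 with hc
  have hcb : ∀ m, |c m| ≤ 1 := by
    intro m
    rw [hc]
    simp only
    split_ifs <;> simp
  have h1 := PNegl.finset_sum (Finset.univ : Finset (MaximalSpectrum (F ⊗[K] F')))
    (fun m p => low (gg (iL K F F' m D * iR K F F' m D') τ) p - c m)
    (fun m => dq (Fac K F F' m) * 1 + 1)
    (fun m _ p => (abs_sub _ _).trans (add_le_add (low_abs_dq (gg_abs _ _) p) (hcb m)))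
    (fun m _ => one_field (fac_ne_zero hD hD' m) τ)
  have hcs : ∑ m, c m = if τ = 0 then (inum K F F' D D' : ℝ) else 0 := by
    rw [hc]
    by_cases hτ : τ = 0
    · simp only [hτ, true_and, if_true]
      rw [Finset.sum_boole]
      unfold inum
      rw [Nat.card_eq_fintype_card, Fintype.card_subtype]
      congr 2
      refine Finset.filter_congr fun m _ => ?_
      rw [iL_iR_coe]
    · simp [hτ]
  refine PNegl.congr h1 (B := ∑ m : MaximalSpectrum (F ⊗[K] F'),
    (dq (Fac K F F' m) * 1 + 1 : ℝ))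
    (B' := Module.finrank ℚ K * ((Module.finrank ℚ F * 1) * (Module.finrank ℚ F' * 1) * 1) +
      |if τ = 0 then (inum K F F' D D' : ℝ) else 0|) ?_ ?_ hN ?_
  · intro p
    refine (Finset.abs_sum_le_sum_abs _ _).trans (Finset.sum_le_sum fun m _ => ?_)
    exact (abs_sub _ _).trans (add_le_add (low_abs_dq (gg_abs _ _) p) (hcb m))
  · intro p
    refine (abs_sub _ _).trans (add_le_add ?_ le_rfl)
    refine (Finset.abs_sum_le_sum_abs _ _).trans ?_
    refine (Finset.sum_le_sum (g := fun _ =>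
      (((Module.finrank ℚ F : ℝ) * 1) * (Module.finrank ℚ F' * 1) * 1)) fun u _ => ?_).trans ?_
    · rw [abs_mul, abs_mul]
      have e1 := push_abs_le (K := K) (qh_abs D) ⟨p, u⟩
      have e2 := push_abs_le (K := K) (qh_abs D') ⟨p, u⟩
      have e3 := abs_re_le (p : ℕ) p.2.pos τ
      exact mul_le_mul (mul_le_mul e1 e2 (abs_nonneg _) (by positivity)) e3 (abs_nonneg _)
        (by positivity)
    · rw [Finset.sum_const, nsmul_eq_mul, Finset.card_univ]
      exact mul_le_mul_of_nonneg_right (by exact_mod_cast card_hom_le p) (by positivity)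
  · intro p hp
    rw [Finset.sum_sub_distrib, hcs]
    congr 1
    have : Fact (p : ℕ).Prime := ⟨p.2⟩
    have h2 := hsum p hp (fun ψ ψ' => qh D ⟨p, ψ⟩ * qh D' ⟨p, ψ'⟩ *
      (((p : ℕ) : ℂ) ^ (-(τ * I))).re)
    have h3 : ∀ u : 𝓞 K →+* ZMod (p : ℕ), push K (qh D) ⟨p, u⟩ * push K (qh D') ⟨p, u⟩ *
        (((p : ℕ) : ℂ) ^ (-(τ * I))).re = (∑ ψ ∈ Finset.univ.filter
        (fun ψ : 𝓞 F →+* ZMod (p : ℕ) => res K ψ = u), ∑ ψ' ∈ Finset.univ.filter
        (fun ψ' : 𝓞 F' →+* ZMod (p : ℕ) => res K ψ' = u), qh D ⟨p, ψ⟩ * qh D' ⟨p, ψ'⟩ *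
      (((p : ℕ) : ℂ) ^ (-(τ * I))).re) := by
      intro u
      unfold push
      rw [Finset.sum_mul_sum, Finset.sum_mul]
      refine Finset.sum_congr rfl fun ψ _ => ?_
      rw [Finset.sum_mul]
    rw [Finset.sum_congr rfl fun u _ => h3 u, h2]
    refine Finset.sum_congr rfl fun m _ => ?_
    rw [low_kerPrime]
    refine Finset.sum_congr rfl fun Ψ _ => ?_
    unfold gg
    rw [nm_kerPrime, chi_kerPrime, qh_eq, qh_eq, map_mul, map_mul]
    push_cast
    rfl

end

end Pool.Agent.W353.TP
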