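import Pool.Agent.H26.Lib.R_seed8.W353.TP.Stab
import Pool.Agent.H26.Lib.R_seed8.W353.TP.Kum

/-! Every family of twists over `F` is related to one over `F ∩ M`. -/

set_option autoImplicit false

namespace Pool.Agent.W353.TP

open NumberField
open Pool.Agent.H126T (pairs)
open Pool.Agent.H921R2.TatePole (exists_int_mul)

section
variable {K : Type} [Field K] [NumberField K] {r : ℕ}

theorem exists_rel (M : IntermediateField K (Om K)) [FiniteDimensional K M] [Normal K M]
    (F F₀ : IntermediateField K (Om K)) [NumberField F] [NumberField F₀] (hF₀ : F₀ = F ⊓ M)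
    (d : Fin r → 𝓞 F) (hd : ∀ i, d i ≠ 0) :
    ∃ e : Fin r → 𝓞 F₀, (∀ i, e i ≠ 0) ∧ Rel M d e := by
  classical
  have hMn : NumberField M := NumberField.of_module_finite K M
  let δ : Fin r → Om K := fun i => ((d i : F) : Om K)
  have hδF : ∀ i, δ i ∈ F := fun i => (d i : F).2
  have hδ0 : ∀ i, δ i ≠ 0 := by
    intro i h
    apply hd i
    have h1 : (d i : F) = 0 := Subtype.ext h
    rwa [RingOfIntegers.coe_eq_zero_iff] at h1
  -- the equivalence relation
  let st : Setoid (Fin r) :=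
    { r := fun i j => ∃ y ∈ F ⊔ M, y ^ 2 = δ i * δ j
      iseqv :=
        { refl := fun i => ⟨δ i, (le_sup_left : F ≤ F ⊔ M) (hδF i), by rw [sq]⟩
          symm := fun {i j} ⟨y, hy, h⟩ => ⟨y, hy, by rw [h, mul_comm]⟩
          trans := fun {i j l} ⟨y, hy, h⟩ ⟨z, hz, h'⟩ => ⟨y * z / δ j,
            div_mem (mul_mem hy hz) ((le_sup_left : F ≤ F ⊔ M) (hδF j)), by
              have := hδ0 j
              rw [div_pow, mul_pow, h, h']
              field_simp⟩ } }
  let c : Fin r → Fin r := fun i => (Quotient.mk st i).out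
  have hc : ∀ i, ∃ y ∈ F ⊔ M, y ^ 2 = δ i * δ (c i) := by
    intro i
    have h1 : st (c i) i := Quotient.exact (Quotient.out_eq _)
    exact st.symm h1
  have hcc : ∀ i j, (∃ y ∈ F ⊔ M, y ^ 2 = δ i * δ j) → c i = c j := by
    intro i j h
    have h1 : (Quotient.mk st i) = Quotient.mk st j := Quotient.sound h
    change (Quotient.mk st i).out = (Quotient.mk st j).out
    rw [h1]
  have hk : ∀ i, ∃ t ∈ M, t ≠ 0 ∧ t ^ 2 ∈ F ∧ ∃ u ∈ F, u ^ 2 = δ i * δ (c i) * t ^ 2 := by
    intro i
    obtain ⟨y, hy, hyd⟩ := hc i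
    exact kummer F M (mul_mem (hδF i) (hδF (c i))) (mul_ne_zero (hδ0 i) (hδ0 (c i))) hy hyd
  choose t htM ht0 htF u huF hu using hk
  -- integrality
  have hint : ∀ i, ∃ (N : ℤ) (a : 𝓞 F₀), N ≠ 0 ∧ ((a : F₀) : Om K) = (N : Om K) ^ 2 * t i ^ 2 := by
    intro i
    have h1 : t i ^ 2 ∈ F₀ := by
      rw [hF₀]
      exact ⟨htF i, pow_mem (htM i) 2⟩
    obtain ⟨N, hN, a, ha⟩ := exists_int_mul F₀ ⟨t i ^ 2, h1⟩
    refine ⟨N, (N : 𝓞 F₀) * a, hN, ?_⟩
    have h2 : (((N : 𝓞 F₀) * a : 𝓞 F₀) : F₀) = (N : F₀) * ((N : F₀) * ⟨t i ^ 2, h1⟩) := by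
      rw [← ha]
      push_cast
      rfl
    rw [h2]
    push_cast
    ring
  choose N a hN ha using hint
  obtain ⟨g, hg1, hg2⟩ := many_classes M r
  let e : Fin r → 𝓞 F₀ := fun i => a i * ((g (c i) : ℕ) : 𝓞 F₀)
  have he : ∀ i, ((e i : F₀) : Om K) = (N i : Om K) ^ 2 * t i ^ 2 * (g (c i) : Om K) := by
    intro i
    have : ((e i : F₀) : Om K) = ((a i : F₀) : Om K) * (g (c i) : Om K) := by
      change (((a i * ((g (c i) : ℕ) : 𝓞 F₀) : 𝓞 F₀) : F₀) : Om K) = _
      push_cast
      rfl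
    rw [this, ha]
  have hgne : ∀ i, (g i : Om K) ≠ 0 := fun i => by exact_mod_cast (hg1 i).ne_zero
  have hNne : ∀ i, (N i : Om K) ≠ 0 := fun i => by exact_mod_cast hN i
  refine ⟨e, fun i h => ?_, fun j hj => ?_⟩
  · have h1 := he i
    rw [h] at h1
    have h2 : ((((0 : 𝓞 F₀) : F₀)) : Om K) = 0 := rfl
    rw [h2] at h1
    exact mul_ne_zero (mul_ne_zero (pow_ne_zero 2 (hNne i)) (pow_ne_zero 2 (ht0 i)))
      (hgne (c i)) h1.symm
  · rw [pr_mul, pr_mul, he, he]
    by_cases h : ∃ y ∈ F ⊔ M, y ^ 2 = δ j.1 * δ j.2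
    · left
      have hcj : c j.1 = c j.2 := hcc _ _ h
      have e1 := hu j.1
      have e2 := hu j.2
      have hc0 := hδ0 (c j.2)
      constructor
      · refine ⟨u j.1 * u j.2 * N j.1 * N j.2 * g (c j.2) / δ (c j.2), ?_, ?_⟩
        · refine div_mem (mul_mem (mul_mem (mul_mem (mul_mem (huF _) (huF _)) ?_) ?_) ?_) (hδF _)
          · exact intCast_mem F _
          · exact intCast_mem F _
          · exact natCast_mem F _
        · rw [hcj] at e1 ⊢
          change _ = δ j.1 * δ j.2 * _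
          rw [div_pow, mul_pow, mul_pow, mul_pow, mul_pow, e1, e2]
          field_simp
      · refine ⟨N j.1 * N j.2 * t j.1 * t j.2 * g (c j.2), ?_, ?_⟩
        · refine mul_mem (mul_mem (mul_mem (mul_mem ?_ ?_) (htM _)) (htM _)) ?_
          · exact intCast_mem M _
          · exact intCast_mem M _
          · exact natCast_mem M _
        · rw [hcj]
          ring
    · right
      have hcj : c j.1 ≠ c j.2 := by
        intro hcj
        apply h
        have h1 : st j.1 j.2 := by
          have h2 : st j.1 (c j.1) := hc j.1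
          have h3 : st j.2 (c j.2) := hc j.2
          rw [← hcj] at h3
          exact st.trans h2 (st.symm h3)
        exact h1
      constructor
      · intro y hy hy2
        exact h ⟨y, hy, hy2⟩
      · intro y hy hy2
        have h1 : y / (N j.1 * t j.1 * (N j.2 * t j.2)) ∈ M := by
          refine div_mem hy (mul_mem (mul_mem ?_ (htM _)) (mul_mem ?_ (htM _)))
          · exact intCast_mem M _
          · exact intCast_mem M _
        refine hg2 (c j.1) (c j.2) hcj ⟨_, h1⟩ (Subtype.ext ?_)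
        push_cast
        rw [div_pow, hy2]
        have := hNne j.1
        have := hNne j.2
        have := ht0 j.1
        have := ht0 j.2
        field_simp

end

end Pool.Agent.W353.TP
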